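import Pool.Agent.Helper84.Curl.Scaling
import Pool.Agent.Helper94.Curl.MollA
import Pool.Agent.Helper40.Curl.KC
import Pool.Agent.Helper80.Curl.Balls
import Pool.Agent.Helper43.Curl.FP

/-!
# Filling: optimality for all compact supports
-/

open MeasureTheory Set Filter Topology Metric
open scoped ContDiff RealInnerProductSpace
open Pool.Agent.Helper38.Curl
open Pool.Agent.Helper94.Curl Pool.Agent.Helper40.Curl Pool.Agent.Helper80.Curl
open Pool.Agent.Helper43.Curl

namespace Pool.Agent.Helper84.Curl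

section

variable (mol_memLp : ∀ {v : E → E} (hv : MemLp v 2) {r : ℝ} (hr : 0 < r), MemLp (mol r v) 2)
  (sq_mol_le : ∀ {v : E → E} (hv : MemLp v 2) {r : ℝ} (hr : 0 < r), sq (mol r v) ≤ sq v)
  (mol_tendsto : ∀ {v : E → E} (hv : MemLp v 2),
    Tendsto (fun r => sq (fun x => mol r v x - v x)) (𝓝[>] 0) (𝓝 0))
  (lipDom_ball_diff : ∀ {R : ℝ} (hR : 0 < R) (t : Finset (E × ℝ)) (hpos : ∀ p ∈ t, 0 < p.2)
    (hin : ∀ p ∈ t, closedBall p.1 p.2 ⊆ ball 0 R)
    (hd : (t : Set (E × ℝ)).PairwiseDisjoint fun p => closedBall p.1 p.2),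
    LipDom (ball 0 R \ ⋃ p ∈ t, closedBall p.1 p.2))

include mol_memLp sq_mol_le mol_tendsto in
theorem tendsto_ip_mol {v w : E → E} (hv : MemLp v 2) (hw : MemLp w 2) :
    Tendsto (fun r => ip (mol r v) (mol r w)) (𝓝[>] 0) (𝓝 (ip v w)) := by
  rw [tendsto_iff_norm_sub_tendsto_zero]
  have h1 : Tendsto (fun r => √(sq (fun x => mol r v x - v x)) * √(sq w)
      + √(sq v) * √(sq (fun x => mol r w x - w x))) (𝓝[>] 0) (𝓝 0) := by
    have h1 := ((mol_tendsto hv).sqrt.mul_const (√(sq w))).add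
      (((mol_tendsto hw).sqrt).const_mul (√(sq v)))
    simpa using h1
  refine squeeze_zero' (Eventually.of_forall fun _ => norm_nonneg _) ?_ h1
  filter_upwards [self_mem_nhdsWithin] with r hr
  have hr' : 0 < r := hr
  have hmv := mol_memLp hv hr'
  have hmw := mol_memLp hw hr'
  have hdv : MemLp (fun x => mol r v x - v x) 2 := hmv.sub hv
  have hdw : MemLp (fun x => mol r w x - w x) 2 := hmw.sub hw
  have e1 : ip (mol r v) (mol r w) - ip v w
      = ip (fun x => mol r v x - v x) (mol r w) + ip v (fun x => mol r w x - w x) := by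
    rw [ip_sub_left hmv hv hmw, ip_sub_right hv hmw hw]; ring
  rw [e1, Real.norm_eq_abs]
  calc |ip (fun x => mol r v x - v x) (mol r w) + ip v (fun x => mol r w x - w x)|
      ≤ |ip (fun x => mol r v x - v x) (mol r w)| + |ip v (fun x => mol r w x - w x)| :=
        abs_add_le _ _
    _ ≤ √(sq (fun x => mol r v x - v x)) * √(sq (mol r w))
        + √(sq v) * √(sq (fun x => mol r w x - w x)) :=
        add_le_add (abs_ip_le hdv hmw) (abs_ip_le hv hdw)
    _ ≤ _ := by
        gcongr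
        exact sq_mol_le hw hr'

include lipDom_ball_diff in
theorem fill_step {Λ : ℝ} (hΛ : 0 < Λ)
    (hmin : ∀ Ω', LipDom Ω' → volume Ω' = 1 → ∀ A, TestIn Ω' A →
      ip (curl A) A ≤ Λ * sq (curl A)) {C : Set E} (hC : IsCompact C) (hne : C.Nonempty)
    {b w : E → E} (hp : Pot b w) (hv : VanOff C w) {δ : ℝ} (hδ : 0 < δ) (hδ1 : δ ≤ 1) :
    ip (mol δ w) (mol δ b)
      ≤ Λ * ((volume (cthickening (2 * δ) C)).toReal + δ) ^ (1 / 3 : ℝ)
        * ip (mol δ w) (mol δ w) := by
  obtain ⟨R₁, hR₁b, hR₁w⟩ := hp.bdd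
  obtain ⟨R₂, hR₂⟩ := hC.isBounded.subset_closedBall 0
  set R₀ : ℝ := max (max R₁ R₂) 0 with hR₀
  have hR₀0 : 0 ≤ R₀ := le_max_right _ _
  have h1R : R₁ ≤ R₀ := (le_max_left _ _).trans (le_max_left _ _)
  have h2R : R₂ ≤ R₀ := (le_max_right _ _).trans (le_max_left _ _)
  have hCR : C ⊆ closedBall 0 R₀ := hR₂.trans (closedBall_subset_closedBall h2R)
  set R : ℝ := R₀ + 2 with hR
  have hRpos : 0 < R := by linarith
  have hb0 : VanOff (closedBall 0 R₀) b := hR₁b.mono (closedBall_subset_closedBall h1R)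
  have hbt : Test (mol δ b) := mol_test hp.memLp₁ hb0 hδ
  have hbs : tsupport (mol δ b) ⊆ ball 0 R := by
    have h1 : Function.support (mol δ b) ⊆ cthickening δ (closedBall 0 R₀) := by
      intro x hx
      by_contra hc
      exact hx (mol_van hb0 hδ hc)
    have h2 : tsupport (mol δ b) ⊆ cthickening δ (closedBall 0 R₀) :=
      closure_minimal h1 isClosed_cthickening
    refine h2.trans ?_
    rw [cthickening_closedBall hδ.le hR₀0]
    exact closedBall_subset_ball (by linarith)
  have hbIn : TestIn (ball 0 R) (mol δ b) := ⟨hbt, hbs⟩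
  -- the open set to be filled
  set O : Set E := ball 0 R \ cthickening (2 * δ) C with hO
  have hOo : IsOpen O := isOpen_ball.sdiff isClosed_cthickening
  have hOf : volume O ≠ ⊤ :=
    ((measure_mono sdiff_subset).trans_lt measure_ball_lt_top).ne
  obtain ⟨t, htpos, htO, htd, htv⟩ := exists_balls hOo hOf (ε := ENNReal.ofReal δ)
    (ENNReal.ofReal_pos.2 hδ)
  have htin : ∀ p ∈ t, closedBall p.1 p.2 ⊆ ball 0 R := fun p hp =>
    (htO p hp).trans sdiff_subset
  have hlip := lipDom_ball_diff hRpos t htpos htin htd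
  set Ω' : Set E := ball 0 R \ ⋃ p ∈ t, closedBall p.1 p.2 with hΩ'
  have hcurl : curl (mol δ b) = mol δ w := curl_mol hp hδ
  have hfar : ∀ p ∈ t, ∀ x ∈ ball p.1 (p.2 + δ), curl (mol δ b) x = 0 := by
    intro p hpt x hx
    rw [hcurl]
    apply mol_van hv hδ
    intro hxc
    -- a point of the closed ball near `x`
    have hx' : x ∈ thickening δ (closedBall p.1 p.2) := by
      rw [thickening_closedBall hδ (htpos p hpt).le, add_comm]; exact hx
    obtain ⟨y, hy, hxy⟩ := mem_thickening_iff.1 hx'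
    apply (htO p hpt hy).2
    rw [mem_cthickening_iff] at hxc ⊢
    calc infEDist y C ≤ infEDist x C + edist y x := by
          rw [add_comm]; exact infEDist_le_edist_add_infEDist
      _ ≤ ENNReal.ofReal δ + ENNReal.ofReal δ := by
          gcongr
          rw [edist_dist, dist_comm]
          exact ENNReal.ofReal_le_ofReal hxy.le
      _ = ENNReal.ofReal (2 * δ) := by
          rw [← ENNReal.ofReal_add hδ.le hδ.le]; ring_nf
  obtain ⟨A, hA, hAc, hAi⟩ := fix_pot t htpos htin htd hbIn hδ hfar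
  -- volumes
  have hCcl : volume (cthickening (2 * δ) C) ≠ ⊤ :=
    (hC.isBounded.cthickening).measure_lt_top.ne
  have hvol : volume Ω' ≤ volume (cthickening (2 * δ) C) + ENNReal.ofReal δ := by
    have hsub : Ω' ⊆ cthickening (2 * δ) C ∪ (O \ ⋃ p ∈ t, closedBall p.1 p.2) := by
      intro x hx
      by_cases h : x ∈ cthickening (2 * δ) C
      · exact Or.inl h
      · exact Or.inr ⟨⟨hx.1, h⟩, hx.2⟩
    exact (measure_mono hsub).trans ((measure_union_le _ _).trans (by gcongr))
  have hΩf : volume Ω' ≠ ⊤ := (measure_mono sdiff_subset).trans_lt measure_ball_lt_top |>.ne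
  have hvr : volume.real Ω' ≤ (volume (cthickening (2 * δ) C)).toReal + δ := by
    have h1 : (volume Ω').toReal ≤ (volume (cthickening (2 * δ) C) + ENNReal.ofReal δ).toReal :=
      ENNReal.toReal_mono (by simp [hCcl]) hvol
    rwa [ENNReal.toReal_add hCcl ENNReal.ofReal_ne_top, ENNReal.toReal_ofReal hδ.le] at h1
  have hpos : 0 < volume.real Ω' := by
    have h1 : IsOpen Ω' := hlip.isOpen
    have h2 : Ω'.Nonempty := by
      obtain ⟨c, hc⟩ := hne
      refine ⟨c, ?_, ?_⟩
      · exact closedBall_subset_ball (by linarith) (hCR hc)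
      · simp only [mem_iUnion, not_exists]
        intro p hpt hcp
        exact (htO p hpt hcp).2 (self_subset_cthickening _ hc)
    exact ENNReal.toReal_pos (h1.measure_pos _ h2).ne' hΩf
  have hmain := ip_scaled hmin hlip hpos hA
  rw [hAi, hAc, hcurl, sq_eq_ip] at hmain
  refine hmain.trans ?_
  have hnn : 0 ≤ ip (mol δ w) (mol δ w) := by rw [← sq_eq_ip]; exact sq_nonneg' _
  gcongr

include mol_memLp sq_mol_le mol_tendsto lipDom_ball_diff in
theorem fill_of {Λ : ℝ} (hΛ : 0 < Λ)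
    (hmin : ∀ Ω', LipDom Ω' → volume Ω' = 1 → ∀ A, TestIn Ω' A →
      ip (curl A) A ≤ Λ * sq (curl A)) {C : Set E} (hC : IsCompact C) {b w : E → E}
    (hp : Pot b w) (hv : VanOff C w) :
    ip w b ≤ Λ * (volume.real C) ^ (1 / 3 : ℝ) * sq w := by
  rcases C.eq_empty_or_nonempty with hne | hne
  · subst hne
    have hw : w =ᵐ[volume] (fun _ => 0) := by
      filter_upwards [hv] with x hx
      exact hx (by simp)
    have h1 : ip w b = 0 := by
      rw [ip_congr hw (Filter.EventuallyEq.refl _ b)]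
      simp [ip]
    have h2 : sq w = 0 := by
      rw [sq_congr hw]; simp [Pool.Agent.Helper38.Curl.sq]
    rw [h1, h2]; simp
  · have h1 := tendsto_ip_mol mol_memLp sq_mol_le mol_tendsto hp.memLp₂ hp.memLp₁
    have h2 := tendsto_ip_mol mol_memLp sq_mol_le mol_tendsto hp.memLp₂ hp.memLp₂
    have h3 : Tendsto (fun δ : ℝ => (volume (cthickening (2 * δ) C)).toReal + δ) (𝓝[>] 0)
        (𝓝 (volume.real C)) := by
      have h4 : Tendsto (fun δ : ℝ => 2 * δ) (𝓝[>] 0) (𝓝 0) := by
        have : Tendsto (fun δ : ℝ => 2 * δ) (𝓝 0) (𝓝 (2 * 0)) := tendsto_id.const_mul 2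
        rw [mul_zero] at this
        exact this.mono_left nhdsWithin_le_nhds
      have h5 := (tendsto_measure_cthickening_of_isCompact (μ := volume) hC).comp h4
      have h6 := (ENNReal.tendsto_toReal hC.measure_lt_top.ne).comp h5
      have h7 : Tendsto (fun δ : ℝ => δ) (𝓝[>] 0) (𝓝 0) := tendsto_id.mono_left nhdsWithin_le_nhds
      have h8 := h6.add h7
      simpa [Measure.real] using h8
    have h4 : Tendsto (fun δ : ℝ => Λ * ((volume (cthickening (2 * δ) C)).toReal + δ) ^ (1 / 3 : ℝ)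
        * ip (mol δ w) (mol δ w)) (𝓝[>] 0) (𝓝 (Λ * (volume.real C) ^ (1 / 3 : ℝ) * ip w w)) :=
      ((h3.rpow_const (Or.inr (by norm_num))).const_mul Λ).mul h2
    rw [sq_eq_ip]
    refine le_of_tendsto_of_tendsto h1 h4 ?_
    have h5 : ∀ᶠ δ : ℝ in 𝓝[>] 0, δ ≤ 1 :=
      (eventually_le_nhds (show (0 : ℝ) < 1 by norm_num)).filter_mono nhdsWithin_le_nhds
    filter_upwards [self_mem_nhdsWithin, h5] with δ hδ hδ1
    exact fill_step lipDom_ball_diff hΛ hmin hC hne hp hv hδ hδ1

end

end Pool.Agent.Helper84.Curl
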