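import Pool.Agent.Helper84.Curl.FillOf
import Pool.Agent.Helper22.Curl.M2
import Pool.Agent.Helper11.Curl.FG

/-!
# Filling: optimality for all compact supports (packet C-FILL)
-/

open MeasureTheory Set Filter Topology Metric
open scoped ContDiff RealInnerProductSpace
open Pool.Agent.Helper38.Curl

namespace Pool.Agent.Helper84.Curl

theorem fill {Λ : ℝ} (hΛ : 0 < Λ)
    (hmin : ∀ Ω', LipDom Ω' → volume Ω' = 1 → ∀ A, TestIn Ω' A →
      ip (curl A) A ≤ Λ * sq (curl A)) {C : Set E} (hC : IsCompact C) {b w : E → E}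
    (hp : Pot b w) (hv : VanOff C w) :
    ip w b ≤ Λ * (volume.real C) ^ (1 / 3 : ℝ) * sq w :=
  fill_of (fun hv _ hr => Pool.Agent.Helper22.Curl.mol_memLp hv hr)
    (fun hv _ hr => Pool.Agent.Helper22.Curl.sq_mol_le hv hr)
    (fun hv => Pool.Agent.Helper22.Curl.mol_tendsto hv)
    (fun hR t hpos hin hd => Pool.Agent.Helper11.Curl.lipDom_ball_diff hR t hpos hin hd)
    hΛ hmin hC hp hv

end Pool.Agent.Helper84.Curl
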