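import Pool.Agent.Helper38.Curl.Rep

/-!
# Scaling of the helicity inequality on Lipschitz domains
-/

open MeasureTheory Set Filter Topology Metric
open scoped ContDiff RealInnerProductSpace
open Pool.Agent.Helper38.Curl

namespace Pool.Agent.Helper84.Curl

theorem horiz_smul (k : ℝ) (y : E) : horiz (k • y) = k • horiz y := by
  ext i; fin_cases i <;> simp [horiz]

/-- The dilation by `k`, as a homeomorphism. -/
noncomputable def dil {k : ℝ} (hk : 0 < k) : E ≃ₜ E := Homeomorph.smulOfNeZero k hk.ne'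

theorem lipDom_dil {Ω : Set E} (h : LipDom Ω) {k : ℝ} (hk : 0 < k) :
    LipDom {x : E | k • x ∈ Ω} := by
  refine ⟨h.isOpen.preimage (continuous_const_smul k), ?_, ?_⟩
  · obtain ⟨R, hR⟩ := h.isBounded.subset_closedBall 0
    refine (isBounded_closedBall (x := (0 : E)) (r := R / k)).subset ?_
    intro x hx
    have h1 := hR hx
    rw [mem_closedBall_zero_iff, norm_smul, Real.norm_of_nonneg hk.le] at h1
    rw [mem_closedBall_zero_iff, le_div_iff₀ hk]
    linarith
  · intro p hp
    have hp' : k • p ∈ frontier Ω := by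
      have : frontier ((dil hk) ⁻¹' Ω) = (dil hk) ⁻¹' frontier Ω :=
        ((dil hk).preimage_frontier Ω).symm
      have h2 : p ∈ (dil hk) ⁻¹' frontier Ω := by rw [← this]; exact hp
      exact h2
    obtain ⟨T, L, φ, r, hr, hφ, hy⟩ := h.lip _ hp'
    refine ⟨T, L, fun h => k⁻¹ * φ (k • h), r / k, by positivity, ?_, ?_⟩
    · refine LipschitzWith.of_dist_le_mul fun a b => ?_
      have h1 := hφ.dist_le_mul (k • a) (k • b)
      rw [dist_smul₀, Real.norm_of_nonneg hk.le] at h1
      rw [Real.dist_eq, ← mul_sub, abs_mul, abs_of_pos (inv_pos.2 hk), ← Real.dist_eq]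
      rw [inv_mul_le_iff₀ hk]
      linarith
    · intro y hy'
      have h1 : k • y ∈ ball (k • p) r := by
        rw [mem_ball, dist_smul₀, Real.norm_of_nonneg hk.le]
        rw [mem_ball, lt_div_iff₀ hk] at hy'
        linarith
      have h2 := hy _ h1
      have h3 : (y ∈ {x : E | k • x ∈ Ω}) ↔ k • y ∈ Ω := Iff.rfl
      rw [h3, h2, map_smul, horiz_smul]
      have h4 : (k • T y) 2 = k * (T y) 2 := by simp
      rw [h4, inv_mul_lt_iff₀ hk]

theorem curl_dil {A : E → E} (hA : Test A) {k : ℝ} (x : E) :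
    curl (fun x => A (k • x)) x = k • curl A (k • x) := by
  have hd : ∀ i j, pd (fun x => A (k • x)) i j x = k * pd A i j (k • x) := by
    intro i j
    unfold pd
    have h1 : HasFDerivAt (fun x : E => k • x) (k • ContinuousLinearMap.id ℝ E) x :=
      (hasFDerivAt_id x).const_smul k
    have h2 : DifferentiableAt ℝ A (k • x) := (hA.1.differentiable (by simp)).differentiableAt
    have h3 := (h2.hasFDerivAt.comp x h1).fderiv
    have h4 : fderiv ℝ (fun x => A (k • x)) x = _ := h3
    rw [h4]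
    simp
  apply ext3 <;>
    simp only [curl_apply_zero, curl_apply_one, curl_apply_two, hd, PiLp.smul_apply,
      smul_eq_mul] <;> ring

theorem testIn_dil {Ω : Set E} {A : E → E} (h : TestIn Ω A) {k : ℝ} (hk : 0 < k) :
    TestIn {x : E | k • x ∈ Ω} (fun x => A (k • x)) := by
  refine ⟨⟨h.1.1.comp (contDiff_const_smul k), h.1.2.comp_smul hk.ne'⟩, ?_⟩
  have h1 : tsupport (fun x => A (k • x)) = (dil hk) ⁻¹' tsupport A := by
    exact tsupport_comp_eq_preimage A (dil hk)
  rw [h1]
  intro x hx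
  exact h.2 hx

theorem integral_dil (f : E → ℝ) {k : ℝ} (hk : 0 < k) :
    ∫ x, f (k • x) = (k ^ 3)⁻¹ * ∫ x, f x := by
  rw [Measure.integral_comp_smul]
  simp only [finrank_euclideanSpace, Fintype.card_fin, smul_eq_mul]
  rw [abs_of_pos (by positivity)]

theorem ip_scaled {Λ : ℝ}
    (hmin : ∀ Ω', LipDom Ω' → volume Ω' = 1 → ∀ A, TestIn Ω' A →
      ip (curl A) A ≤ Λ * sq (curl A)) {Ω : Set E} (h : LipDom Ω) (hpos : 0 < volume.real Ω)
    {A : E → E} (hA : TestIn Ω A) :
    ip (curl A) A ≤ Λ * (volume.real Ω) ^ (1 / 3 : ℝ) * sq (curl A) := by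
  set m := volume.real Ω with hm
  set k : ℝ := m ^ (1 / 3 : ℝ) with hk'
  have hk : 0 < k := Real.rpow_pos_of_pos hpos _
  have hk3 : k ^ 3 = m := by
    rw [hk', ← Real.rpow_natCast, ← Real.rpow_mul hpos.le]; norm_num
  have hvol : volume {x : E | k • x ∈ Ω} = 1 := by
    have h1 : {x : E | k • x ∈ Ω} = (k • ·) ⁻¹' Ω := rfl
    have hfin : volume Ω ≠ ⊤ := h.isBounded.measure_lt_top.ne
    rw [h1, Measure.addHaar_preimage_smul _ hk.ne']
    simp only [finrank_euclideanSpace, Fintype.card_fin]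
    rw [hk3, abs_of_pos (inv_pos.2 hpos), ← ENNReal.ofReal_toReal hfin, ← ENNReal.ofReal_mul
      (inv_nonneg.2 hpos.le)]
    have : m⁻¹ * (volume Ω).toReal = 1 := inv_mul_cancel₀ hpos.ne'
    rw [this, ENNReal.ofReal_one]
  have h2 := hmin _ (lipDom_dil h hk) hvol _ (testIn_dil hA hk)
  have h3 : curl (fun x => A (k • x)) = fun x => k • curl A (k • x) :=
    funext fun x => curl_dil hA.1 x
  rw [h3] at h2
  have h4 : ip (fun x => k • curl A (k • x)) (fun x => A (k • x))
      = k * ((k ^ 3)⁻¹ * ip (curl A) A) := by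
    rw [ip_smul_left]
    congr 1
    exact integral_dil (fun x => ⟪curl A x, A x⟫) hk
  have h5 : sq (fun x => k • curl A (k • x)) = k ^ 2 * ((k ^ 3)⁻¹ * sq (curl A)) := by
    rw [sq_smul]
    congr 1
    exact integral_dil (fun x => ‖curl A x‖ ^ 2) hk
  rw [h4, h5] at h2
  have h6 : ip (curl A) A = (k ^ 2) * (k * ((k ^ 3)⁻¹ * ip (curl A) A)) := by
    field_simp
  have h7 : Λ * k * sq (curl A) = k ^ 2 * (Λ * (k ^ 2 * ((k ^ 3)⁻¹ * sq (curl A)))) := by
    field_simp
  rw [h6, h7]
  exact mul_le_mul_of_nonneg_left h2 (by positivity)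

end Pool.Agent.Helper84.Curl
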